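import Mathlib
import Pool.Agent.Helper540.Holo

set_option autoImplicit false

open Complex Metric Set Filter Topology Real

namespace H14R3.Cara

/-- Circle average of `ζ^{-m} f(ζ)` is the `m`-th Taylor coefficient. -/
theorem avg_coeff {F : Type*} [NormedAddCommGroup F] [NormedSpace ℂ F] [CompleteSpace F]
    {f : ℂ → F} (hf : DifferentiableOn ℂ f (closedBall 0 1)) (m : ℕ) :
    Real.circleAverage (fun z : ℂ => ((z ^ m)⁻¹ : ℂ) • f z) 0 1 =
      ((m.factorial : ℂ)⁻¹) • iteratedFDeriv ℂ m f 0 (fun _ => (1 : ℂ)) := by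
  have hf' : DifferentiableOn ℂ f (closedBall 0 (1 : NNReal)) := by simpa using hf
  have h := hf'.hasFPowerSeriesOnBall (R := 1) (by norm_num)
  have h1 := h.factorial_smul (1 : ℂ) m
  rw [← h1]
  have hm : (m.factorial : ℂ) ≠ 0 := by exact_mod_cast Nat.factorial_ne_zero m
  have h2 : ∀ x : F, ((m.factorial : ℂ)⁻¹) • (m.factorial • x) = x := by
    intro x
    rw [← Nat.cast_smul_eq_nsmul ℂ, smul_smul, inv_mul_cancel₀ hm, one_smul]
  rw [h2, cauchyPowerSeries_apply, Real.circleAverage_eq_circleIntegral (by norm_num)]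
  congr 1
  apply circleIntegral.integral_congr (by norm_num)
  intro z hz
  simp only [sub_zero, one_div, inv_pow]
  rw [smul_comm]

/-- Circle average of a function which extends continuously at `0`. -/
theorem avg_ratio {F : Type*} [NormedAddCommGroup F] [NormedSpace ℂ F] [CompleteSpace F]
    {D : ℂ → F} {w : F} (hD : ∀ z ∈ closedBall (0:ℂ) 1, z ≠ 0 → DifferentiableAt ℂ D z)
    (hw : Tendsto D (𝓝[≠] 0) (𝓝 w)) :
    Real.circleAverage D 0 1 = w := by
  have h1 : Real.circleAverage D 0 1 = Real.circleAverage (Function.update D 0 w) 0 1 := by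
    apply Real.circleAverage_congr_sphere
    intro z hz
    have hz0 : z ≠ 0 := by
      rintro rfl
      simp at hz
    rw [Function.update_of_ne hz0]
  rw [h1, circleAverage_of_differentiable_on_off_countable (s := {0}) (countable_singleton 0)]
  · simp
  · intro z hz
    rw [abs_one] at hz
    by_cases hz0 : z = 0
    · subst hz0
      exact (continuousAt_update_same.2 hw).continuousWithinAt
    · have := (hD z hz hz0).continuousAt
      exact ((continuousAt_update_of_ne hz0).2 this).continuousWithinAt
  · intro z hz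
    rw [abs_one] at hz
    have hz0 : z ≠ 0 := by simpa using hz.2
    have h2 := hD z (ball_subset_closedBall hz.1) hz0
    refine h2.congr_of_eventuallyEq ?_
    filter_upwards [isOpen_ne.mem_nhds hz0] with x hx
    rw [Function.update_of_ne hx]

/-- The `m`-th Taylor coefficient of a slice. -/
theorem slice {E F : Type} [NormedAddCommGroup E] [NormedSpace ℂ E] [FiniteDimensional ℂ E]
    [NormedAddCommGroup F] [NormedSpace ℂ F] [CompleteSpace F]
    {h : E → F} (hh : DifferentiableOn ℂ h (ball 0 1)) (z : E) (m : ℕ) :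
    iteratedFDeriv ℂ m (fun l : ℂ => h (l • z)) 0 (fun _ => (1 : ℂ)) =
      iteratedFDeriv ℂ m h 0 (fun _ => z) := by
  have hc := Pool.Agent.Helper540.contDiffOn_of_differentiableOn isOpen_ball hh m
  let g : ℂ →L[ℂ] E := ContinuousLinearMap.toSpanSingleton ℂ z
  have hs : IsOpen (ball (0 : E) 1) := isOpen_ball
  have hs' : IsOpen (g ⁻¹' (ball (0 : E) 1)) := hs.preimage g.continuous
  have h0 : g 0 ∈ ball (0 : E) 1 := by simp
  have h1 := g.iteratedFDerivWithin_comp_right hc hs.uniqueDiffOn hs'.uniqueDiffOn h0 (i := m) le_rfl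
  rw [iteratedFDerivWithin_of_isOpen m hs' (by simpa using h0),
    iteratedFDerivWithin_of_isOpen m hs h0] at h1
  have h2 : (h ∘ g) = fun l : ℂ => h (l • z) := by
    ext l
    simp [g, ContinuousLinearMap.toSpanSingleton_apply]
  rw [h2] at h1
  rw [h1]
  simp [g, ContinuousLinearMap.toSpanSingleton_apply]

end H14R3.Cara
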