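import Mathlib

set_option autoImplicit false

open Complex Metric

namespace H14R3.Cara

/-- The Carathéodory family `𝓜` on the Euclidean unit ball of `ℂⁿ`.  Note that in Mathlib
`inner ℂ z w = ∑ j, conj (z j) * w j`, so `inner ℂ z (h z)` is `⟨h(z), z⟩` in the convention
`⟨z,w⟩ = ∑ j, z j * conj (w j)`. -/
structure InM (n : ℕ) (h : EuclideanSpace ℂ (Fin n) → EuclideanSpace ℂ (Fin n)) : Prop where
  holo : DifferentiableOn ℂ h (ball 0 1)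
  map_zero : h 0 = 0
  fderiv_zero : fderiv ℂ h 0 = ContinuousLinearMap.id ℂ (EuclideanSpace ℂ (Fin n))
  pos : ∀ z ∈ ball (0 : EuclideanSpace ℂ (Fin n)) 1, z ≠ 0 → 0 < (inner ℂ z (h z)).re

/-- The homogeneous part `P_m(z) = (1/m!) D^m h(0)(z,…,z)`. -/
noncomputable def P (n : ℕ) (h : EuclideanSpace ℂ (Fin n) → EuclideanSpace ℂ (Fin n)) (m : ℕ)
    (z : EuclideanSpace ℂ (Fin n)) : EuclideanSpace ℂ (Fin n) :=
  ((m.factorial : ℂ)⁻¹) • iteratedFDeriv ℂ m h 0 (fun _ => z)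

/-- `‖P_m‖ = sup {‖P_m(z)‖ : ‖z‖ = 1}` (a maximum). -/
noncomputable def normP (n : ℕ) (h : EuclideanSpace ℂ (Fin n) → EuclideanSpace ℂ (Fin n))
    (m : ℕ) : ℝ :=
  sSup {r : ℝ | ∃ z : EuclideanSpace ℂ (Fin n), ‖z‖ = 1 ∧ r = ‖P n h m z‖}

/-- `C_{m,n} = sup {‖P_m‖ : h ∈ 𝓜}`. -/
noncomputable def C (m n : ℕ) : ℝ :=
  sSup {r : ℝ | ∃ h : EuclideanSpace ℂ (Fin n) → EuclideanSpace ℂ (Fin n),
    InM n h ∧ r = normP n h m}

end H14R3.Cara
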