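import Mathlib
import Pool.Agent.H14R3.Cara.Avg
import Pool.Agent.H14R3.Cara.Defs

set_option autoImplicit false

open Complex Metric Set Filter Topology Real

namespace H14R3.Cara

variable {E : Type} [NormedAddCommGroup E] [InnerProductSpace ℂ E]

/-- the numerator `p ζ^m v + q ζ u` -/
noncomputable def psi (p q : ℝ) (u v : E) (m : ℕ) (z : ℂ) : E :=
  ((p : ℂ) * z ^ m) • v + ((q : ℂ) * z) • u

/-- the disc `φ` -/
noncomputable def phi (p q : ℝ) (u v : E) (m : ℕ) (c : ℂ) (z : ℂ) : E :=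
  (1 - c * z ^ (m - 1))⁻¹ • psi p q u v m z

theorem den_ne {c z : ℂ} {k : ℕ} (hc : ‖c‖ < 1) (hz : ‖z‖ ≤ 1) : 1 - c * z ^ k ≠ 0 := by
  intro h
  have h1 : c * z ^ k = 1 := by linear_combination -h
  have h2 : ‖c * z ^ k‖ = 1 := by rw [h1]; simp
  rw [norm_mul, norm_pow] at h2
  have h3 : ‖z‖ ^ k ≤ 1 := pow_le_one₀ (norm_nonneg _) hz
  nlinarith [norm_nonneg c, norm_nonneg z]

theorem phi_differentiableAt (p q : ℝ) (u v : E) (m : ℕ) {c z : ℂ} (hc : ‖c‖ < 1)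
    (hz : ‖z‖ ≤ 1) : DifferentiableAt ℂ (phi p q u v m c) z := by
  unfold phi psi
  have h1 := den_ne (k := m - 1) hc hz
  apply DifferentiableAt.smul
  · exact DifferentiableAt.inv (by fun_prop) h1
  · fun_prop

theorem norm_psi_sq (p q : ℝ) {u v : E} (hu : ‖u‖ = 1) (hv : ‖v‖ = 1) {m : ℕ} (hm : 1 ≤ m)
    {z : ℂ} (hz : ‖z‖ = 1) :
    ‖psi p q u v m z‖ ^ 2 = p ^ 2 + q ^ 2 + 2 * p * q * (z ^ (m - 1) * inner ℂ u v).re := by
  unfold psi
  rw [← inner_self_eq_norm_sq (𝕜 := ℂ)]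
  rw [inner_add_left, inner_add_right, inner_add_right]
  simp only [inner_smul_left, inner_smul_right]
  have hvv : inner ℂ v v = (1 : ℂ) := by
    rw [inner_self_eq_norm_sq_to_K, hv]; simp
  have huu : inner ℂ u u = (1 : ℂ) := by
    rw [inner_self_eq_norm_sq_to_K, hu]; simp
  rw [hvv, huu]
  have hzz : (starRingEnd ℂ) z * z = 1 := by
    rw [mul_comm, Complex.mul_conj, Complex.normSq_eq_norm_sq, hz]; simp
  have hzm : (starRingEnd ℂ) (z ^ m) * z ^ m = 1 := by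
    rw [map_pow, ← mul_pow, hzz, one_pow]
  obtain ⟨k, rfl⟩ : ∃ k, m = k + 1 := ⟨m - 1, by omega⟩
  have hvu : inner ℂ v u = (starRingEnd ℂ) (inner ℂ u v) := (inner_conj_symm v u).symm
  have e1 : (starRingEnd ℂ) ((p : ℂ) * z ^ (k + 1)) * ((p : ℂ) * z ^ (k + 1) * 1) = (p : ℂ) ^ 2 := by
    rw [map_mul, Complex.conj_ofReal]
    linear_combination (p : ℂ) ^ 2 * hzm
  have e2 : (starRingEnd ℂ) ((q : ℂ) * z) * ((q : ℂ) * z * 1) = (q : ℂ) ^ 2 := by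
    rw [map_mul, Complex.conj_ofReal]
    linear_combination (q : ℂ) ^ 2 * hzz
  have e3 : (starRingEnd ℂ) ((q : ℂ) * z) * ((p : ℂ) * z ^ (k + 1) * inner ℂ u v) =
      (p : ℂ) * q * (z ^ k * inner ℂ u v) := by
    rw [map_mul, Complex.conj_ofReal, pow_succ]
    linear_combination (p : ℂ) * q * z ^ k * inner ℂ u v * hzz
  have e4 : (starRingEnd ℂ) ((p : ℂ) * z ^ (k + 1)) * ((q : ℂ) * z * inner ℂ v u) =
      (starRingEnd ℂ) ((p : ℂ) * q * (z ^ k * inner ℂ u v)) := by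
    rw [hvu, map_mul, map_mul, map_mul, map_mul, Complex.conj_ofReal, Complex.conj_ofReal, map_pow,
      map_pow, pow_succ]
    linear_combination (p : ℂ) * q * (starRingEnd ℂ) z ^ k * (starRingEnd ℂ) (inner ℂ u v) * hzz
  have key : ((p : ℂ) * z ^ (k + 1) * ((starRingEnd ℂ) ((p : ℂ) * z ^ (k + 1)) * 1) +
          (q : ℂ) * z * ((starRingEnd ℂ) ((p : ℂ) * z ^ (k + 1)) * inner ℂ v u) +
        ((p : ℂ) * z ^ (k + 1) * ((starRingEnd ℂ) ((q : ℂ) * z) * inner ℂ u v) +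
          (q : ℂ) * z * ((starRingEnd ℂ) ((q : ℂ) * z) * 1))) =
      (p : ℂ) ^ 2 + (q : ℂ) ^ 2 + ((p : ℂ) * q * (z ^ k * inner ℂ u v) +
        (starRingEnd ℂ) ((p : ℂ) * q * (z ^ k * inner ℂ u v))) := by
    linear_combination e1 + e2 + e3 + e4
  rw [show k + 1 - 1 = k from rfl, key, Complex.add_conj]
  have e6 : ((p : ℂ) * q * (z ^ k * inner ℂ u v)).re = p * q * (z ^ k * inner ℂ u v).re := by
    rw [← Complex.ofReal_mul, Complex.re_ofReal_mul]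
  have e7 : ((p : ℂ) ^ 2 + (q : ℂ) ^ 2 + ((2 * ((p : ℂ) * q * (z ^ k * inner ℂ u v)).re : ℝ) : ℂ)) =
      ((p ^ 2 + q ^ 2 + 2 * ((p : ℂ) * q * (z ^ k * inner ℂ u v)).re : ℝ) : ℂ) := by
    push_cast
    ring
  rw [e7]
  show (((p ^ 2 + q ^ 2 + 2 * ((p : ℂ) * q * (z ^ k * inner ℂ u v)).re : ℝ) : ℂ)).re = _
  rw [Complex.ofReal_re, e6]
  ring

theorem norm_den_sq {c z : ℂ} {k : ℕ} (hz : ‖z‖ = 1) :
    ‖1 - c * z ^ k‖ ^ 2 = 1 + ‖c‖ ^ 2 - 2 * (c * z ^ k).re := by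
  rw [← Complex.normSq_eq_norm_sq, Complex.normSq_sub, one_mul, Complex.conj_re]
  simp only [map_one, Complex.normSq_eq_norm_sq, norm_mul, norm_pow, hz, one_pow, mul_one]

theorem norm_phi_eq (p q : ℝ) {u v : E} (hu : ‖u‖ = 1) (hv : ‖v‖ = 1) {m : ℕ} (hm : 1 ≤ m)
    (hc : ‖(p * q : ℂ) * inner ℂ u v‖ < 1)
    (hpq : p ^ 2 + q ^ 2 = 1 + ‖(p * q : ℂ) * inner ℂ u v‖ ^ 2)
    {z : ℂ} (hz : ‖z‖ = 1) :
    ‖phi p q u v m (-((p * q : ℂ) * inner ℂ u v)) z‖ = 1 := by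
  have hc' : ‖(-((p * q : ℂ) * inner ℂ u v))‖ < 1 := by rwa [norm_neg]
  have hne := den_ne (k := m - 1) hc' hz.le
  have h1 := norm_psi_sq p q hu hv hm hz
  have h2 := norm_den_sq (c := (-((p * q : ℂ) * inner ℂ u v))) (k := m - 1) hz
  have h3 : (-((p * q : ℂ) * inner ℂ u v) * z ^ (m - 1)).re =
      -(p * q * (z ^ (m - 1) * inner ℂ u v).re) := by
    have : (-((p * q : ℂ) * inner ℂ u v) * z ^ (m - 1)) =
      -(((p * q : ℝ) : ℂ) * (z ^ (m - 1) * inner ℂ u v)) := by push_cast; ring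
    rw [this, Complex.neg_re, Complex.re_ofReal_mul]
  rw [h3, norm_neg] at h2
  have h4 : ‖psi p q u v m z‖ ^ 2 = ‖1 - -((p * q : ℂ) * inner ℂ u v) * z ^ (m - 1)‖ ^ 2 := by
    rw [h1, h2, hpq]; ring
  have h5 : ‖psi p q u v m z‖ = ‖1 - -((p * q : ℂ) * inner ℂ u v) * z ^ (m - 1)‖ := by
    have := (sq_eq_sq₀ (norm_nonneg _) (norm_nonneg _)).1 h4
    exact this
  unfold phi
  rw [norm_smul, norm_inv, h5]
  exact inv_mul_cancel₀ (norm_ne_zero_iff.2 hne)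

theorem norm_phi_le (p q : ℝ) {u v : E} (hu : ‖u‖ = 1) (hv : ‖v‖ = 1) {m : ℕ} (hm : 1 ≤ m)
    (hc : ‖(p * q : ℂ) * inner ℂ u v‖ < 1)
    (hpq : p ^ 2 + q ^ 2 = 1 + ‖(p * q : ℂ) * inner ℂ u v‖ ^ 2)
    {z : ℂ} (hz : ‖z‖ ≤ 1) :
    ‖phi p q u v m (-((p * q : ℂ) * inner ℂ u v)) z‖ ≤ 1 := by
  have hc' : ‖(-((p * q : ℂ) * inner ℂ u v))‖ < 1 := by rwa [norm_neg]
  have hd : DiffContOnCl ℂ (phi p q u v m (-((p * q : ℂ) * inner ℂ u v))) (ball 0 1) := by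
    apply DifferentiableOn.diffContOnCl
    rw [closure_ball _ one_ne_zero]
    intro x hx
    exact (phi_differentiableAt p q u v m hc' (by simpa using hx)).differentiableWithinAt
  apply Complex.norm_le_of_forall_mem_frontier_norm_le (U := ball (0:ℂ) 1) isBounded_ball hd
  · intro x hx
    rw [frontier_ball _ one_ne_zero, mem_sphere_zero_iff_norm] at hx
    exact (norm_phi_eq p q hu hv hm hc hpq hx).le
  · rw [closure_ball _ one_ne_zero]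
    simpa using hz

end H14R3.Cara
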