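import Mathlib
import Pool.Agent.H14R3.Cara.Ineq

set_option autoImplicit false

open Complex Metric Set Filter Topology Real

namespace H14R3.Cara

variable {E : Type} [NormedAddCommGroup E] [InnerProductSpace ℂ E] [FiniteDimensional ℂ E]

/-- reduced disc `g` with `φ(ζ) = ζ g(ζ)` -/
noncomputable def gg (p q : ℝ) (u v : E) (m : ℕ) (c : ℂ) (z : ℂ) : E :=
  (1 - c * z ^ (m - 1))⁻¹ • (((p : ℂ) * z ^ (m - 1)) • v + (q : ℂ) • u)

omit [FiniteDimensional ℂ E] in
theorem phi_eq_smul (p q : ℝ) (u v : E) {m : ℕ} (hm : 2 ≤ m) (c z : ℂ) :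
    phi p q u v m c z = z • gg p q u v m c z := by
  obtain ⟨k, rfl⟩ : ∃ k, m = k + 1 := ⟨m - 1, by omega⟩
  unfold phi psi gg
  simp only [Nat.add_sub_cancel]
  match_scalars
  · ring
  · ring

omit [FiniteDimensional ℂ E] in
theorem gg_zero (p q : ℝ) (u v : E) {m : ℕ} (hm : 2 ≤ m) (c : ℂ) :
    gg p q u v m c 0 = (q : ℂ) • u := by
  unfold gg
  rw [zero_pow (by omega)]
  simp

omit [FiniteDimensional ℂ E] in
theorem gg_continuousAt (p q : ℝ) (u v : E) (m : ℕ) {c z : ℂ} (hc : ‖c‖ < 1)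
    (hz : ‖z‖ ≤ 1) : ContinuousAt (gg p q u v m c) z := by
  unfold gg
  have h1 := den_ne (k := m - 1) hc hz
  apply ContinuousAt.smul
  · exact ContinuousAt.inv₀ (by fun_prop) h1
  · fun_prop

/-- limit of `H(ζ)/ζ` -/
theorem lim_one {h : E → E} (h0 : h 0 = 0)
    (hd : HasFDerivAt h (ContinuousLinearMap.id ℂ E) 0)
    (p q : ℝ) (u v : E) {m : ℕ} (hm : 2 ≤ m) {c : ℂ} (hc : ‖c‖ < 1) (t : ℂ) :
    Tendsto (fun z : ℂ => z⁻¹ • h (t • phi p q u v m c z)) (𝓝[≠] 0) (𝓝 ((t * q) • u)) := by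
  have hg := gg_continuousAt p q u v m (z := 0) hc (by simp)
  have hphi : HasDerivAt (fun z => t • phi p q u v m c z) (t • ((q : ℂ) • u)) 0 := by
    apply HasDerivAt.const_smul
    rw [hasDerivAt_iff_tendsto_slope]
    have h2 : Tendsto (gg p q u v m c) (𝓝[≠] 0) (𝓝 ((q : ℂ) • u)) := by
      have := hg.tendsto
      rw [gg_zero p q u v hm] at this
      exact this.mono_left nhdsWithin_le_nhds
    refine h2.congr' ?_
    filter_upwards [self_mem_nhdsWithin] with z hz
    have hz' : z ≠ 0 := hz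
    rw [slope_def_module, phi_eq_smul p q u v hm c z, phi_eq_smul p q u v hm c 0, zero_smul,
      sub_zero, sub_zero, smul_smul, inv_mul_cancel₀ hz', one_smul]
  have h00 : t • phi p q u v m c 0 = 0 := by
    rw [phi_eq_smul p q u v hm c 0]; simp
  have hd' : HasFDerivAt h (ContinuousLinearMap.id ℂ E) (t • phi p q u v m c 0) := by
    rw [h00]; exact hd
  have h3 := hd'.comp_hasDerivAt (0 : ℂ) hphi
  rw [hasDerivAt_iff_tendsto_slope] at h3
  have h4 : (ContinuousLinearMap.id ℂ E) (t • ((q : ℂ) • u)) = (t * q) • u := by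
    show t • ((q : ℂ) • u) = _
    rw [smul_smul]
  rw [h4] at h3
  refine h3.congr' ?_
  filter_upwards [self_mem_nhdsWithin] with z hz
  rw [slope_def_module]
  simp only [Function.comp_apply]
  rw [h00, h0, sub_zero, sub_zero]

omit [FiniteDimensional ℂ E] in
/-- limit of the `m`-th order difference quotient -/
theorem lim_m {h : E → E}
    (hd : HasStrictFDerivAt h (ContinuousLinearMap.id ℂ E) 0)
    (p q : ℝ) (u v : E) {m : ℕ} (hm : 2 ≤ m) {c : ℂ} (hc : ‖c‖ < 1) (t : ℂ) :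
    Tendsto (fun z : ℂ => (z ^ m)⁻¹ • (h (t • phi p q u v m c z) - h (z • ((t * q) • u))))
      (𝓝[≠] 0) (𝓝 (t • ((p : ℂ) • v + (c * q) • u))) := by
  set x : ℂ → E := fun z => t • phi p q u v m c z with hx
  set y : ℂ → E := fun z => z • ((t * q) • u) with hy
  have hxc : ContinuousAt x 0 := by
    have := (phi_differentiableAt p q u v m (z := 0) hc (by simp)).continuousAt
    exact this.const_smul t
  have hyc : ContinuousAt y 0 := by
    rw [hy]; fun_prop
  have hx0 : x 0 = 0 := by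
    simp only [hx]
    rw [phi_eq_smul p q u v hm c 0]; simp
  have hy0 : y 0 = 0 := by simp [hy]
  have hxy : Tendsto (fun z => (x z, y z)) (𝓝[≠] 0) (𝓝 ((0 : E), (0 : E))) := by
    rw [nhds_prod_eq]
    apply Tendsto.prodMk
    · have := hxc.tendsto; rw [hx0] at this; exact this.mono_left nhdsWithin_le_nhds
    · have := hyc.tendsto; rw [hy0] at this; exact this.mono_left nhdsWithin_le_nhds
  -- difference
  have hdiff : ∀ z : ℂ, ‖z‖ ≤ 1 → x z - y z =
      z ^ m • ((t * (1 - c * z ^ (m - 1))⁻¹) • ((p : ℂ) • v + (c * q) • u)) := by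
    intro z hz
    have h1 := den_ne (k := m - 1) hc hz
    simp only [hx, hy]
    unfold phi psi
    obtain ⟨k, rfl⟩ : ∃ k, m = k + 1 := ⟨m - 1, by omega⟩
    simp only [Nat.add_sub_cancel] at h1 ⊢
    match_scalars
    · field_simp
    · field_simp
      ring
  have hball : ∀ᶠ z : ℂ in 𝓝[≠] 0, ‖z‖ ≤ 1 := by
    have : ∀ᶠ z : ℂ in 𝓝 0, ‖z‖ ≤ 1 := by
      filter_upwards [Metric.ball_mem_nhds (0 : ℂ) one_pos] with z hz
      simpa using (mem_ball_zero_iff.1 hz).le
    exact this.filter_mono nhdsWithin_le_nhds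
  have hlim1 : Tendsto (fun z : ℂ => (z ^ m)⁻¹ • (x z - y z)) (𝓝[≠] 0)
      (𝓝 (t • ((p : ℂ) • v + (c * q) • u))) := by
    have h2 : ContinuousAt (fun z : ℂ => (t * (1 - c * z ^ (m - 1))⁻¹) •
        ((p : ℂ) • v + (c * q) • u)) 0 := by
      have h1 := den_ne (c := c) (z := 0) (k := m - 1) hc (by simp)
      apply ContinuousAt.smul
      · exact ContinuousAt.mul continuousAt_const (ContinuousAt.inv₀ (by fun_prop) h1)
      · fun_prop
    have h3 := h2.tendsto
    rw [zero_pow (by omega), mul_zero, sub_zero, inv_one, mul_one] at h3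
    refine (h3.mono_left nhdsWithin_le_nhds).congr' ?_
    filter_upwards [self_mem_nhdsWithin, hball] with z hz hz1
    have hz' : z ^ m ≠ 0 := pow_ne_zero _ hz
    rw [hdiff z hz1, smul_smul, smul_smul, ← mul_assoc, inv_mul_cancel₀ hz', one_mul]
  have hO : (fun z => x z - y z) =O[𝓝[≠] 0] fun z : ℂ => z ^ m := by
    have h7 := hlim1.isBigO_one ℂ
    have h8 := (Asymptotics.isBigO_refl (fun z : ℂ => z ^ m) (𝓝[≠] 0)).smul h7
    refine h8.congr' ?_ ?_
    · filter_upwards [self_mem_nhdsWithin] with z hz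
      have hz' : z ^ m ≠ 0 := pow_ne_zero _ hz
      rw [smul_smul, mul_inv_cancel₀ hz', one_smul]
    · filter_upwards with z
      simp
  have hlo := hd.isLittleO.comp_tendsto hxy
  have hlo2 : (fun z => h (x z) - h (y z) - (x z - y z)) =o[𝓝[≠] 0] fun z : ℂ => z ^ m := by
    refine (hlo.trans_isBigO ?_).congr_left ?_
    · exact hO
    · intro z; simp
  have h5 := hlo2.tendsto_inv_smul_nhds_zero
  have h6 := h5.add hlim1
  rw [zero_add] at h6
  refine h6.congr ?_
  intro z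
  rw [← smul_add]
  congr 1
  abel

end H14R3.Cara
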