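import Mathlib
import Pool.Agent.H14R3.Cara.Key

set_option autoImplicit false

open Complex Metric Set Filter Topology Real

namespace H14R3.Cara

variable {E : Type} [NormedAddCommGroup E] [InnerProductSpace ℂ E] [FiniteDimensional ℂ E]

theorem circInt_of_cont {F : Type} [NormedAddCommGroup F] {f : ℂ → F}
    (hf : ∀ z : ℂ, ‖z‖ = 1 → ContinuousAt f z) : CircleIntegrable f 0 1 := by
  apply ContinuousOn.circleIntegrable (by norm_num)
  intro z hz
  exact (hf z (by simpa using hz)).continuousWithinAt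

theorem q_le_one {p q a : ℝ} (hp : 0 < p) (hq : 0 < q) (ha : 0 ≤ a) (ha1 : a ≤ 1)
    (hc : p * q * a < 1) (hpq : p ^ 2 + q ^ 2 = 1 + (p * q * a) ^ 2) : q ≤ 1 := by
  by_contra hq1
  push Not at hq1
  have h1 : 0 ≤ (p * q * a) := by positivity
  have h2 : (p * q * a) ^ 2 < 1 := by nlinarith
  have h3 : p ^ 2 < 1 := by nlinarith
  have h4 : (p * q * a) ^ 2 ≤ p ^ 2 * q ^ 2 := by
    have : a ^ 2 ≤ 1 := by nlinarith
    have h5 : 0 ≤ p ^ 2 * q ^ 2 := by positivity
    calc (p * q * a) ^ 2 = p ^ 2 * q ^ 2 * a ^ 2 := by ring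
      _ ≤ p ^ 2 * q ^ 2 * 1 := by gcongr
      _ = p ^ 2 * q ^ 2 := by ring
  have h6 : 0 < (q ^ 2 - 1) * (1 - p ^ 2) := by
    apply mul_pos <;> nlinarith
  nlinarith

theorem key_ineq {h : E → E} (hol : DifferentiableOn ℂ h (ball 0 1)) (h0 : h 0 = 0)
    (hd : fderiv ℂ h 0 = ContinuousLinearMap.id ℂ E)
    (hpos : ∀ z ∈ ball (0 : E) 1, z ≠ 0 → 0 < (inner ℂ z (h z)).re)
    {u v : E} (hu : ‖u‖ = 1) (hv : ‖v‖ = 1) {m : ℕ} (hm : 2 ≤ m) {p q : ℝ} (hp : 0 < p)
    (hq : 0 < q) (hc0 : ‖(p * q : ℂ) * inner ℂ u v‖ < 1)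
    (hpq : p ^ 2 + q ^ 2 = 1 + ‖(p * q : ℂ) * inner ℂ u v‖ ^ 2) {t : ℝ} (ht0 : 0 < t)
    (ht1 : t < 1) :
    0 ≤ t * (p ^ 2 + q ^ 2) + p * (t * q) ^ m *
      (inner ℂ v (((m.factorial : ℂ)⁻¹) • iteratedFDeriv ℂ m h 0 (fun _ => u))).re := by
  set c : ℂ := -((p * q : ℂ) * inner ℂ u v) with hc
  have hc1 : ‖c‖ < 1 := by rw [hc, norm_neg]; exact hc0
  set H : ℂ → E := fun z => h ((t : ℂ) • phi p q u v m c z) with hH
  set Pu : E := ((m.factorial : ℂ)⁻¹) • iteratedFDeriv ℂ m h 0 (fun _ => u) with hPu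
  have hopen : IsOpen (ball (0 : E) 1) := isOpen_ball
  have h0mem : (0 : E) ∈ ball (0 : E) 1 := by simp
  -- strict differentiability at zero
  have hcd : ContDiffAt ℂ 1 h 0 := by
    have := Pool.Agent.Helper540.contDiffOn_of_differentiableOn hopen hol 1
    exact (this.contDiffAt (hopen.mem_nhds h0mem))
  have hstrict : HasStrictFDerivAt h (ContinuousLinearMap.id ℂ E) 0 := by
    rw [← hd]
    exact hcd.hasStrictFDerivAt one_ne_zero
  have hphile : ∀ z : ℂ, ‖z‖ ≤ 1 → ‖phi p q u v m c z‖ ≤ 1 := by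
    intro z hz
    exact norm_phi_le p q hu hv (by omega) hc0 hpq hz
  have hball : ∀ z : ℂ, ‖z‖ ≤ 1 → (t : ℂ) • phi p q u v m c z ∈ ball (0 : E) 1 := by
    intro z hz
    rw [mem_ball_zero_iff, norm_smul, Complex.norm_real, Real.norm_of_nonneg ht0.le]
    calc t * ‖phi p q u v m c z‖ ≤ t * 1 := by
          gcongr; exact hphile z hz
      _ < 1 := by linarith
  have hHd : ∀ z : ℂ, ‖z‖ ≤ 1 → DifferentiableAt ℂ H z := by
    intro z hz
    have h1 : DifferentiableAt ℂ h ((t : ℂ) • phi p q u v m c z) :=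
      hol.differentiableAt (hopen.mem_nhds (hball z hz))
    have h2 : DifferentiableAt ℂ (fun z => (t : ℂ) • phi p q u v m c z) z :=
      (phi_differentiableAt p q u v m hc1 hz).const_smul _
    exact DifferentiableAt.comp z h1 h2
  have hphi0 : phi p q u v m c 0 = 0 := by rw [phi_eq_smul p q u v hm c 0]; simp
  have hH0 : H 0 = 0 := by simp only [hH]; rw [hphi0, smul_zero, h0]
  -- the averages
  have hA1 : Real.circleAverage (fun z : ℂ => z⁻¹ • H z) 0 1 = ((t : ℂ) * q) • u := by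
    apply avg_ratio
    · intro z hz hz0
      exact (differentiableAt_inv hz0).smul (hHd z (by simpa using hz))
    · exact lim_one h0 hstrict.hasFDerivAt p q u v hm hc1 t
  have hA0 : Real.circleAverage (fun z : ℂ => z ^ (m - 2) • H z) 0 1 = 0 := by
    apply avg_ratio
    · intro z hz hz0
      exact (differentiableAt_pow (m - 2)).smul (hHd z (by simpa using hz))
    · have h1 : ContinuousAt (fun z : ℂ => z ^ (m - 2) • H z) 0 :=
        ((differentiableAt_pow (m - 2)).smul (hHd 0 (by simp))).continuousAt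
      have h2 := h1.tendsto
      rw [hH0, smul_zero] at h2
      exact h2.mono_left nhdsWithin_le_nhds
  have hnc : ‖(p * q : ℂ) * inner ℂ u v‖ = p * q * ‖(inner ℂ u v : ℂ)‖ := by
    rw [norm_mul, norm_mul, Complex.norm_real, Complex.norm_real, Real.norm_of_nonneg hp.le,
      Real.norm_of_nonneg hq.le]
  have huv : ‖(inner ℂ u v : ℂ)‖ ≤ 1 := by
    have := norm_inner_le_norm (𝕜 := ℂ) u v
    rwa [hu, hv, one_mul] at this
  have hq1 : q ≤ 1 := by
    rw [hnc] at hc0 hpq
    exact q_le_one hp hq (norm_nonneg _) huv hc0 hpq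
  have htqlt : ∀ z : ℂ, ‖z‖ ≤ 1 → z • (((t : ℂ) * q) • u) ∈ ball (0 : E) 1 := by
    intro z hz
    rw [mem_ball_zero_iff, norm_smul, norm_smul, norm_mul, Complex.norm_real, Complex.norm_real,
      Real.norm_of_nonneg hq.le, Real.norm_of_nonneg ht0.le, hu, mul_one]
    have h1 : ‖z‖ * (t * q) ≤ 1 * (t * q) := by
      apply mul_le_mul_of_nonneg_right hz (by positivity)
    have h2 : t * q ≤ t * 1 := by
      apply mul_le_mul_of_nonneg_left hq1 ht0.le
    linarith
  have hfd : ∀ z : ℂ, ‖z‖ ≤ 1 → DifferentiableAt ℂ (fun z : ℂ => h (z • (((t : ℂ) * q) • u))) z := by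
    intro z hz
    have h1 : DifferentiableAt ℂ h (z • (((t : ℂ) * q) • u)) :=
      hol.differentiableAt (hopen.mem_nhds (htqlt z hz))
    have h2 : DifferentiableAt ℂ (fun z : ℂ => z • (((t : ℂ) * q) • u)) z := by fun_prop
    exact DifferentiableAt.comp z h1 h2
  have hAm1 : Real.circleAverage (fun z : ℂ => (z ^ m)⁻¹ • h (z • (((t : ℂ) * q) • u))) 0 1 =
      ((t : ℂ) * q) ^ m • Pu := by
    rw [avg_coeff (f := fun z : ℂ => h (z • (((t : ℂ) * q) • u))) _ m, slice hol]
    · have h1 := (iteratedFDeriv ℂ m h 0).map_smul_univ (fun _ => ((t : ℂ) * q)) (fun _ => u)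
      rw [h1, Finset.prod_const, Finset.card_univ, Fintype.card_fin, hPu, smul_comm]
    · intro z hz
      exact (hfd z (by simpa using hz)).differentiableWithinAt
  have hAm2 : Real.circleAverage (fun z : ℂ => (z ^ m)⁻¹ •
      (h ((t : ℂ) • phi p q u v m c z) - h (z • (((t : ℂ) * q) • u)))) 0 1 =
      (t : ℂ) • ((p : ℂ) • v + (c * q) • u) := by
    apply avg_ratio
    · intro z hz hz0
      have hz1 : ‖z‖ ≤ 1 := by simpa using hz
      apply DifferentiableAt.smul
      · exact (differentiableAt_pow m).inv (pow_ne_zero _ hz0)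
      · exact (hHd z hz1).sub (hfd z hz1)
    · exact lim_m hstrict p q u v hm hc1 t
  -- continuity on the circle
  have hz_ne : ∀ z : ℂ, ‖z‖ = 1 → z ≠ 0 := by
    intro z hz h; rw [h] at hz; simp at hz
  have cH : ∀ z : ℂ, ‖z‖ = 1 → ContinuousAt H z := fun z hz => (hHd z hz.le).continuousAt
  have cf : ∀ z : ℂ, ‖z‖ = 1 → ContinuousAt (fun z : ℂ => h (z • (((t : ℂ) * q) • u))) z :=
    fun z hz => (hfd z hz.le).continuousAt
  have cinv : ∀ z : ℂ, ‖z‖ = 1 → ContinuousAt (fun z : ℂ => (z ^ m)⁻¹) z := by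
    intro z hz
    exact ContinuousAt.inv₀ (by fun_prop) (pow_ne_zero _ (hz_ne z hz))
  have hAm : Real.circleAverage (fun z : ℂ => (z ^ m)⁻¹ • H z) 0 1 =
      ((t : ℂ) * q) ^ m • Pu + (t : ℂ) • ((p : ℂ) • v + (c * q) • u) := by
    rw [← hAm1, ← hAm2, ← Real.circleAverage_fun_add]
    · congr 1
      ext z
      rw [← smul_add]
      congr 1
      simp only [hH]
      abel
    · exact circInt_of_cont fun z hz => (cinv z hz).smul (cf z hz)
    · exact circInt_of_cont fun z hz => (cinv z hz).smul ((cH z hz).sub (cf z hz))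
  -- the two combinations
  set X : ℂ → E := fun z => (p : ℂ) • ((z ^ m)⁻¹ • H z) - (c * p) • (z⁻¹ • H z) with hX
  set Y : ℂ → E := fun z => (q : ℂ) • (z⁻¹ • H z) - (c * q) • (z ^ (m - 2) • H z) with hY
  have c1 : ∀ z : ℂ, ‖z‖ = 1 → ContinuousAt (fun z : ℂ => (z ^ m)⁻¹ • H z) z :=
    fun z hz => (cinv z hz).smul (cH z hz)
  have c2 : ∀ z : ℂ, ‖z‖ = 1 → ContinuousAt (fun z : ℂ => z⁻¹ • H z) z :=
    fun z hz => (continuousAt_inv₀ (hz_ne z hz)).smul (cH z hz)
  have c3 : ∀ z : ℂ, ‖z‖ = 1 → ContinuousAt (fun z : ℂ => z ^ (m - 2) • H z) z :=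
    fun z hz => (continuousAt_pow z _).smul (cH z hz)
  have iX : CircleIntegrable X 0 1 :=
    circInt_of_cont fun z hz => ((c1 z hz).const_smul _).sub ((c2 z hz).const_smul _)
  have iY : CircleIntegrable Y 0 1 :=
    circInt_of_cont fun z hz => ((c2 z hz).const_smul _).sub ((c3 z hz).const_smul _)
  have aX : Real.circleAverage X 0 1 = (p : ℂ) • (((t : ℂ) * q) ^ m • Pu +
      (t : ℂ) • ((p : ℂ) • v + (c * q) • u)) - (c * p) • (((t : ℂ) * q) • u) := by
    rw [hX, Real.circleAverage_fun_sub, Real.circleAverage_fun_smul, Real.circleAverage_fun_smul,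
      hAm, hA1]
    · exact circInt_of_cont fun z hz => (c1 z hz).const_smul _
    · exact circInt_of_cont fun z hz => (c2 z hz).const_smul _
  have aY : Real.circleAverage Y 0 1 = (q : ℂ) • (((t : ℂ) * q) • u) := by
    rw [hY, Real.circleAverage_fun_sub, Real.circleAverage_fun_smul, Real.circleAverage_fun_smul,
      hA0, hA1, smul_zero, sub_zero]
    · exact circInt_of_cont fun z hz => (c2 z hz).const_smul _
    · exact circInt_of_cont fun z hz => (c3 z hz).const_smul _
  -- real-linear functionals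
  let Lv : E →L[ℝ] ℝ := Complex.reCLM.comp ((innerSL ℂ v).restrictScalars ℝ)
  let Lu : E →L[ℝ] ℝ := Complex.reCLM.comp ((innerSL ℂ u).restrictScalars ℝ)
  have hLv : ∀ x : E, Lv x = (inner ℂ v x).re := fun x => rfl
  have hLu : ∀ x : E, Lu x = (inner ℂ u x).re := fun x => rfl
  have avX := Lv.circleAverage_comp_comm iX
  have auY := Lu.circleAverage_comp_comm iY
  have jX : CircleIntegrable (Lv ∘ X) 0 1 := by
    apply circInt_of_cont
    intro z hz
    exact Lv.continuous.continuousAt.comp (((c1 z hz).const_smul _).sub ((c2 z hz).const_smul _))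
  have jY : CircleIntegrable (Lu ∘ Y) 0 1 := by
    apply circInt_of_cont
    intro z hz
    exact Lu.continuous.continuousAt.comp (((c2 z hz).const_smul _).sub ((c3 z hz).const_smul _))
  have hsum := Real.circleAverage_add jX jY
  have hnonneg : 0 ≤ Real.circleAverage (Lv ∘ X + Lu ∘ Y) 0 1 := by
    apply Real.circleAverage_nonneg_of_nonneg
    intro z hz
    have hz1 : ‖z‖ = 1 := by simpa using hz
    have hz0 := hz_ne z hz1
    show 0 ≤ (inner ℂ v (X z)).re + (inner ℂ u (Y z)).re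
    have hden := den_ne (c := c) (z := z) (k := m - 1) hc1 hz1.le
    have hphin : ‖phi p q u v m c z‖ = 1 := norm_phi_eq p q hu hv (by omega) hc0 hpq hz1
    have hne : (t : ℂ) • phi p q u v m c z ≠ 0 := by
      intro h
      have : ‖(t : ℂ) • phi p q u v m c z‖ = 0 := by rw [h]; simp
      rw [norm_smul, hphin, Complex.norm_real, Real.norm_of_nonneg ht0.le] at this
      linarith
    have hP := hpos _ (hball z hz1.le) hne
    -- identity
    have hconj : (starRingEnd ℂ) z = z⁻¹ := by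
      have hzz : (starRingEnd ℂ) z * z = 1 := by
        rw [mul_comm, Complex.mul_conj, Complex.normSq_eq_norm_sq, hz1]; simp
      exact eq_inv_of_mul_eq_one_left hzz
    have hid : inner ℂ v (X z) + inner ℂ u (Y z) =
        ((Complex.normSq (1 - c * z ^ (m - 1)) / t : ℝ) : ℂ) *
          inner ℂ ((t : ℂ) • phi p q u v m c z) (H z) := by
      have hdc : (starRingEnd ℂ) (1 - c * z ^ (m - 1)) ≠ 0 := by
        intro h
        apply hden
        have := congrArg (starRingEnd ℂ) h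
        simpa only [Complex.conj_conj, map_zero] using this
      have e1 : inner ℂ ((t : ℂ) • phi p q u v m c z) (H z) =
          t * ((starRingEnd ℂ) (1 - c * z ^ (m - 1)))⁻¹ *
            (p * (z ^ m)⁻¹ * inner ℂ v (H z) + q * z⁻¹ * inner ℂ u (H z)) := by
        unfold phi psi
        rw [inner_smul_left, inner_smul_left, inner_add_left, inner_smul_left, inner_smul_left]
        rw [map_inv₀, map_mul (starRingEnd ℂ) (p : ℂ), map_mul (starRingEnd ℂ) (q : ℂ),
          Complex.conj_ofReal, Complex.conj_ofReal, Complex.conj_ofReal, map_pow, hconj, inv_pow]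
        ring
      have e2 : ((Complex.normSq (1 - c * z ^ (m - 1)) / t : ℝ) : ℂ) =
          (1 - c * z ^ (m - 1)) * (starRingEnd ℂ) (1 - c * z ^ (m - 1)) / t := by
        rw [Complex.mul_conj]
        push_cast
        rfl
      have ht' : (t : ℂ) ≠ 0 := by exact_mod_cast ht0.ne'
      rw [e1, e2]
      simp only [hX, hY, inner_sub_right, inner_smul_right]
      generalize inner ℂ v (H z) = V
      generalize inner ℂ u (H z) = U
      have e3 : (1 - c * z ^ (m - 1)) * (starRingEnd ℂ) (1 - c * z ^ (m - 1)) / t *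
          (t * ((starRingEnd ℂ) (1 - c * z ^ (m - 1)))⁻¹ *
            (p * (z ^ m)⁻¹ * V + q * z⁻¹ * U)) =
          (1 - c * z ^ (m - 1)) * (p * (z ^ m)⁻¹ * V + q * z⁻¹ * U) := by
        generalize (starRingEnd ℂ) (1 - c * z ^ (m - 1)) = d' at hdc
        field_simp
      rw [e3]
      obtain ⟨k, rfl⟩ : ∃ k, m = k + 2 := ⟨m - 2, by omega⟩
      simp only [Nat.add_sub_cancel, show k + 2 - 1 = k + 1 from rfl]
      field_simp
      ring
    have hre : (inner ℂ v (X z)).re + (inner ℂ u (Y z)).re =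
        (Complex.normSq (1 - c * z ^ (m - 1)) / t) *
          (inner ℂ ((t : ℂ) • phi p q u v m c z) (H z)).re := by
      rw [← Complex.add_re, hid, Complex.re_ofReal_mul]
    rw [hre]
    apply mul_nonneg
    · exact div_nonneg (Complex.normSq_nonneg _) ht0.le
    · exact hP.le
  rw [hsum, avX, auY, aX, aY, hLv, hLu] at hnonneg
  have hvv : inner ℂ v v = (1 : ℂ) := by
    rw [inner_self_eq_norm_sq_to_K, hv]; simp
  have huu : inner ℂ u u = (1 : ℂ) := by
    rw [inner_self_eq_norm_sq_to_K, hu]; simp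
  simp only [inner_sub_right, inner_add_right, inner_smul_right, hvv, huu, mul_one] at hnonneg
  rw [← Complex.add_re] at hnonneg
  have hfin : (p : ℂ) * (((t : ℂ) * q) ^ m * inner ℂ v Pu + t * (p + c * q * inner ℂ v u)) -
      c * p * (t * q * inner ℂ v u) + q * (t * q) =
      ((t * (p ^ 2 + q ^ 2) : ℝ) : ℂ) + ((p * (t * q) ^ m : ℝ) : ℂ) * inner ℂ v Pu := by
    push_cast
    ring
  rw [hfin, Complex.add_re, Complex.ofReal_re, Complex.re_ofReal_mul] at hnonneg
  exact hnonneg

end H14R3.Cara
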