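import Mathlib
import Pool.Agent.H14R3.Cara.Bound

set_option autoImplicit false

open Complex Metric Set Filter Topology Real

namespace H14R3.Cara

/-- The constant. -/
noncomputable def K (m : ℕ) : ℝ := √(((m : ℝ) + 1) ^ (m + 1) / (m : ℝ) ^ m)

theorem K_pos {m : ℕ} (hm : 2 ≤ m) : 0 < K m := by
  have : (0 : ℝ) < m := by exact_mod_cast (by omega : 0 < m)
  unfold K
  positivity

theorem K_mul {m : ℕ} (hm : 2 ≤ m) :
    K m * (√(1 / ((m : ℝ) + 1)) * √((m : ℝ) / (m + 1)) ^ m) = 1 := by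
  have hm0 : (0 : ℝ) < m := by exact_mod_cast (by omega : 0 < m)
  have h1 : √((m : ℝ) / (m + 1)) ^ m = √(((m : ℝ) / (m + 1)) ^ m) := by
    rw [Real.sqrt_eq_rpow, Real.sqrt_eq_rpow, ← Real.rpow_natCast, ← Real.rpow_mul (by positivity),
      ← Real.rpow_natCast, ← Real.rpow_mul (by positivity)]
    congr 1
    ring
  rw [h1]
  unfold K
  rw [← Real.sqrt_mul (by positivity), ← Real.sqrt_mul (by positivity)]
  rw [Real.sqrt_eq_one, div_pow, pow_succ]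
  field_simp

/-- scaling parameter -/
theorem exists_s {k : ℝ} (hk0 : 0 ≤ k) (hk : k < 1 / 4) :
    ∃ s : ℝ, 1 ≤ s ∧ s < 2 ∧ s = 1 + s ^ 2 * k := by
  set r := √(1 - 4 * k) with hr
  have hr0 : 0 < r := Real.sqrt_pos.2 (by linarith)
  have hr2 : r ^ 2 = 1 - 4 * k := Real.sq_sqrt (by linarith)
  have hr1 : r ≤ 1 := by
    by_contra h
    push Not at h
    nlinarith
  refine ⟨2 / (1 + r), ?_, ?_, ?_⟩
  · rw [le_div_iff₀ (by linarith)]; linarith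
  · rw [div_lt_iff₀ (by linarith)]; linarith
  · have hk' : k = (1 - r ^ 2) / 4 := by linarith
    rw [hk']
    field_simp
    ring

variable {E : Type} [NormedAddCommGroup E] [InnerProductSpace ℂ E] [FiniteDimensional ℂ E]

theorem upper {h : E → E} (hol : DifferentiableOn ℂ h (ball 0 1)) (h0 : h 0 = 0)
    (hd : fderiv ℂ h 0 = ContinuousLinearMap.id ℂ E)
    (hpos : ∀ z ∈ ball (0 : E) 1, z ≠ 0 → 0 < (inner ℂ z (h z)).re)
    {u : E} (hu : ‖u‖ = 1) {m : ℕ} (hm : 2 ≤ m) :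
    ‖((m.factorial : ℂ)⁻¹) • iteratedFDeriv ℂ m h 0 (fun _ => u)‖ ≤ K m := by
  set x : E := ((m.factorial : ℂ)⁻¹) • iteratedFDeriv ℂ m h 0 (fun _ => u) with hx
  by_cases hx0 : x = 0
  · rw [hx0, norm_zero]; exact (K_pos hm).le
  have hxn : 0 < ‖x‖ := norm_pos_iff.2 hx0
  set v : E := (-((‖x‖⁻¹ : ℝ) : ℂ)) • x with hv
  have hvn : ‖v‖ = 1 := by
    rw [hv, norm_smul, norm_neg, Complex.norm_real, norm_inv, norm_norm]
    exact inv_mul_cancel₀ hxn.ne'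
  have hvx : (inner ℂ v x).re = -‖x‖ := by
    rw [hv, inner_smul_left, inner_self_eq_norm_sq_to_K, map_neg, Complex.conj_ofReal]
    have : (-((‖x‖⁻¹ : ℝ) : ℂ) * ((‖x‖ : ℝ) : ℂ) ^ 2) = ((-‖x‖ : ℝ) : ℂ) := by
      push_cast
      have : ((‖x‖ : ℝ) : ℂ) ≠ 0 := by exact_mod_cast hxn.ne'
      field_simp
    have h2 : (-((‖x‖⁻¹ : ℝ) : ℂ) * ((RCLike.ofReal ‖x‖ : ℂ)) ^ 2) = ((-‖x‖ : ℝ) : ℂ) := this
    rw [h2, Complex.ofReal_re]
  set a : ℝ := ‖(inner ℂ u v : ℂ)‖ with ha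
  have ha0 : 0 ≤ a := norm_nonneg _
  have ha1 : a ≤ 1 := by
    have := norm_inner_le_norm (𝕜 := ℂ) u v
    rwa [hu, hvn, one_mul] at this
  have hm0 : (0 : ℝ) < m := by exact_mod_cast (by omega : 0 < m)
  have hm2 : (2 : ℝ) ≤ m := by exact_mod_cast hm
  set p0 : ℝ := √(1 / ((m : ℝ) + 1)) with hp0
  set q0 : ℝ := √((m : ℝ) / (m + 1)) with hq0
  have hp0p : 0 < p0 := Real.sqrt_pos.2 (by positivity)
  have hq0p : 0 < q0 := Real.sqrt_pos.2 (by positivity)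
  have hp0s : p0 ^ 2 = 1 / ((m : ℝ) + 1) := Real.sq_sqrt (by positivity)
  have hq0s : q0 ^ 2 = (m : ℝ) / (m + 1) := Real.sq_sqrt (by positivity)
  have hsum0 : p0 ^ 2 + q0 ^ 2 = 1 := by
    rw [hp0s, hq0s]; field_simp; ring
  have hk : (p0 * q0 * a) ^ 2 < 1 / 4 := by
    have h1 : p0 ^ 2 * q0 ^ 2 < 1 / 4 := by
      rw [hp0s, hq0s, div_mul_div_comm, div_lt_div_iff₀ (by positivity) (by norm_num)]
      nlinarith
    have h2 : a ^ 2 ≤ 1 := by nlinarith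
    calc (p0 * q0 * a) ^ 2 = p0 ^ 2 * q0 ^ 2 * a ^ 2 := by ring
      _ ≤ p0 ^ 2 * q0 ^ 2 * 1 := by gcongr
      _ < 1 / 4 := by linarith
  obtain ⟨s, hs1, hs2, hs⟩ := exists_s (sq_nonneg (p0 * q0 * a)) hk
  set σ : ℝ := √s with hσ
  have hσ1 : 1 ≤ σ := by rw [hσ]; exact Real.one_le_sqrt.2 hs1
  have hσs : σ ^ 2 = s := Real.sq_sqrt (by linarith)
  have hσ0 : 0 < σ := by linarith
  have hpp : 0 < σ * p0 := by positivity
  have hqp : 0 < σ * q0 := by positivity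
  have hcn : ‖(((σ * p0 : ℝ) : ℂ) * ((σ * q0 : ℝ) : ℂ)) * inner ℂ u v‖ = s * (p0 * q0 * a) := by
    rw [norm_mul, norm_mul, Complex.norm_real, Complex.norm_real, Real.norm_of_nonneg hpp.le,
      Real.norm_of_nonneg hqp.le, ← ha, ← hσs]
    ring
  have hc2 : (s * (p0 * q0 * a)) ^ 2 = s - 1 := by
    nlinarith [hs]
  have hcnn : 0 ≤ s * (p0 * q0 * a) := by positivity
  have hc0 : ‖(((σ * p0 : ℝ) : ℂ) * ((σ * q0 : ℝ) : ℂ)) * inner ℂ u v‖ < 1 := by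
    rw [hcn]
    by_contra hcon
    push Not at hcon
    nlinarith
  have hpq : (σ * p0) ^ 2 + (σ * q0) ^ 2 =
      1 + ‖(((σ * p0 : ℝ) : ℂ) * ((σ * q0 : ℝ) : ℂ)) * inner ℂ u v‖ ^ 2 := by
    rw [hcn, hc2, mul_pow, mul_pow, hσs, ← mul_add, hsum0]
    ring
  have hkey : ∀ t : ℝ, 0 < t → t < 1 →
      (σ * p0) * (t * (σ * q0)) ^ m * ‖x‖ ≤ t * s := by
    intro t ht0 ht1
    have h1 := key_ineq hol h0 hd hpos hu hvn hm hpp hqp hc0 hpq ht0 ht1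
    rw [← hx, hvx] at h1
    have h2 : (σ * p0) ^ 2 + (σ * q0) ^ 2 = s := by
      rw [mul_pow, mul_pow, hσs, ← mul_add, hsum0, mul_one]
    rw [h2] at h1
    linarith
  have hlim : (σ * p0) * (1 * (σ * q0)) ^ m * ‖x‖ ≤ 1 * s := by
    have hc1 : Tendsto (fun t : ℝ => (σ * p0) * (t * (σ * q0)) ^ m * ‖x‖) (𝓝[<] 1)
        (𝓝 ((σ * p0) * (1 * (σ * q0)) ^ m * ‖x‖)) := by
      have : Continuous (fun t : ℝ => (σ * p0) * (t * (σ * q0)) ^ m * ‖x‖) := by fun_prop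
      exact (this.tendsto 1).mono_left nhdsWithin_le_nhds
    have hc2 : Tendsto (fun t : ℝ => t * s) (𝓝[<] 1) (𝓝 (1 * s)) := by
      have : Continuous (fun t : ℝ => t * s) := by fun_prop
      exact (this.tendsto 1).mono_left nhdsWithin_le_nhds
    apply le_of_tendsto_of_tendsto hc1 hc2
    filter_upwards [Ioo_mem_nhdsLT (show (0 : ℝ) < 1 by norm_num)] with t ht
    exact hkey t ht.1 ht.2
  rw [one_mul, one_mul, mul_pow] at hlim
  have hKm := K_mul hm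
  rw [← hp0, ← hq0] at hKm
  have hpos2 : 0 < p0 * q0 ^ m := by positivity
  -- s ≤ σ^(m+1)
  have hσm : s ≤ σ ^ (m + 1) := by
    rw [← hσs]
    exact pow_le_pow_right₀ hσ1 (by omega)
  have h5 : σ ^ (m + 1) * (p0 * q0 ^ m * ‖x‖) ≤ σ ^ (m + 1) * 1 := by
    calc σ ^ (m + 1) * (p0 * q0 ^ m * ‖x‖) = σ * p0 * (σ ^ m * q0 ^ m) * ‖x‖ := by ring
      _ ≤ s := hlim
      _ ≤ σ ^ (m + 1) * 1 := by rw [mul_one]; exact hσm
  have h6 : p0 * q0 ^ m * ‖x‖ ≤ 1 := le_of_mul_le_mul_left h5 (by positivity)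
  calc ‖x‖ = K m * (p0 * q0 ^ m) * ‖x‖ := by rw [hKm, one_mul]
    _ = K m * (p0 * q0 ^ m * ‖x‖) := by ring
    _ ≤ K m * 1 := by gcongr; exact (K_pos hm).le
    _ = K m := mul_one _

end H14R3.Cara
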