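import Mathlib
import Pool.Agent.H14R3.Cara.Final

set_option autoImplicit false

open Complex Metric Set Filter Topology Real

namespace H14R3.Cara

theorem amgm {m : ℕ} (hm : 2 ≤ m) {A B S : ℝ} (hA : 0 ≤ A) (hB : 0 ≤ B) (hS : A + B ≤ S) :
    ((m : ℝ) + 1) ^ (m + 1) / (m : ℝ) ^ m * (A ^ m * B) ≤ S ^ (m + 1) := by
  have hm0 : (0 : ℝ) < m := by exact_mod_cast (by omega : 0 < m)
  have h1 := Real.geom_mean_le_arith_mean2_weighted (w₁ := (m : ℝ) / (m + 1))
    (w₂ := 1 / ((m : ℝ) + 1)) (p₁ := A / m) (p₂ := B) (by positivity) (by positivity)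
    (by positivity) hB (by field_simp)
  have h2 : (m : ℝ) / (m + 1) * (A / m) + 1 / (m + 1) * B = (A + B) / (m + 1) := by
    field_simp
  rw [h2] at h1
  have h3 : (A / m) ^ m * B ≤ ((A + B) / (m + 1)) ^ (m + 1) := by
    have h4 := pow_le_pow_left₀ (by positivity) h1 (m + 1)
    have h5 : ((A / m) ^ ((m : ℝ) / (m + 1)) * B ^ (1 / ((m : ℝ) + 1))) ^ (m + 1) =
        (A / m) ^ m * B := by
      rw [mul_pow, ← Real.rpow_natCast ((A / m) ^ ((m : ℝ) / (m + 1))),
        ← Real.rpow_natCast (B ^ (1 / ((m : ℝ) + 1))), ← Real.rpow_mul (by positivity),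
        ← Real.rpow_mul hB]
      have e1 : (m : ℝ) / (m + 1) * ((m + 1 : ℕ) : ℝ) = m := by push_cast; field_simp
      have e2 : 1 / ((m : ℝ) + 1) * ((m + 1 : ℕ) : ℝ) = 1 := by push_cast; field_simp
      rw [e1, e2, Real.rpow_one, Real.rpow_natCast]
    rw [h5] at h4
    exact h4
  have h6 : ((A + B) / (m + 1)) ^ (m + 1) ≤ (S / (m + 1)) ^ (m + 1) := by
    gcongr
  have h7 := h3.trans h6
  rw [div_pow, div_pow] at h7
  rw [div_mul_eq_mul_div, div_le_iff₀ (by positivity)] at *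
  rw [div_mul_eq_mul_div, le_div_iff₀ (by positivity)] at h7
  linarith

theorem K_ineq {m : ℕ} (hm : 2 ≤ m) {x y R : ℝ} (hx : 0 ≤ x) (hy : 0 ≤ y) (hR : 0 ≤ R)
    (h : x ^ 2 + y ^ 2 ≤ R ^ 2) : K m * (x ^ m * y) ≤ R ^ (m + 1) := by
  have hm0 : (0 : ℝ) < m := by exact_mod_cast (by omega : 0 < m)
  have h1 := amgm hm (sq_nonneg x) (sq_nonneg y) h
  have h2 : (K m * (x ^ m * y)) ^ 2 ≤ (R ^ (m + 1)) ^ 2 := by
    have h3 : K m ^ 2 = ((m : ℝ) + 1) ^ (m + 1) / (m : ℝ) ^ m := Real.sq_sqrt (by positivity)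
    calc (K m * (x ^ m * y)) ^ 2 = K m ^ 2 * ((x ^ 2) ^ m * y ^ 2) := by ring
      _ ≤ (R ^ 2) ^ (m + 1) := by rw [h3]; exact h1
      _ = (R ^ (m + 1)) ^ 2 := by ring
  exact le_of_sq_le_sq h2 (by positivity)

/-- The extremal map `z + K z₂^m e₁`. -/
noncomputable def ext (n m : ℕ) (i j : Fin n) (z : EuclideanSpace ℂ (Fin n)) :
    EuclideanSpace ℂ (Fin n) :=
  z + ((K m : ℂ) * z j ^ m) • EuclideanSpace.single i (1 : ℂ)

theorem ext_inM {n m : ℕ} (hm : 2 ≤ m) {i j : Fin n} (hij : i ≠ j) : InM n (ext n m i j) := by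
  have hcoord : ∀ z : EuclideanSpace ℂ (Fin n), HasFDerivAt
      (fun z : EuclideanSpace ℂ (Fin n) => z j)
      (EuclideanSpace.proj j : EuclideanSpace ℂ (Fin n) →L[ℂ] ℂ) z :=
    fun z => (EuclideanSpace.proj (𝕜 := ℂ) j).hasFDerivAt
  have hpow : ∀ z : EuclideanSpace ℂ (Fin n), HasFDerivAt (ext n m i j)
      (ContinuousLinearMap.id ℂ _ + (((K m : ℂ) • ((m : ℂ) * z j ^ (m - 1)) •
        (EuclideanSpace.proj j : EuclideanSpace ℂ (Fin n) →L[ℂ] ℂ))).smulRight
          (EuclideanSpace.single i (1 : ℂ))) z := by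
    intro z
    unfold ext
    apply HasFDerivAt.add (hasFDerivAt_id z)
    apply HasFDerivAt.smul_const
    have h1 := (hcoord z).pow m
    have h2 := h1.const_mul (K m : ℂ)
    convert h2 using 1
    simp
  refine ⟨?_, ?_, ?_, ?_⟩
  · intro z _
    exact (hpow z).differentiableAt.differentiableWithinAt
  · unfold ext
    simp [show m ≠ 0 by omega]
  · rw [(hpow 0).fderiv]
    have h0 : ((0 : EuclideanSpace ℂ (Fin n)) j) ^ (m - 1) = 0 := by
      simp [show m - 1 ≠ 0 by omega]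
    rw [h0, mul_zero]
    ext z k
    simp
  · intro z hz hz0
    have hzn : 0 < ‖z‖ := norm_pos_iff.2 hz0
    have hz1 : ‖z‖ < 1 := by simpa using hz
    unfold ext
    rw [inner_add_right, inner_smul_right, Complex.add_re]
    have h1 : (inner ℂ z z : ℂ).re = ‖z‖ ^ 2 := by
      rw [inner_self_eq_norm_sq_to_K]
      have : ((RCLike.ofReal ‖z‖ : ℂ)) ^ 2 = ((‖z‖ ^ 2 : ℝ) : ℂ) := by push_cast; rfl
      rw [this, Complex.ofReal_re]
    have h2 : (inner ℂ z (EuclideanSpace.single i (1 : ℂ)) : ℂ) = (starRingEnd ℂ) (z i) := by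
      rw [EuclideanSpace.inner_single_right]; simp
    rw [h1, h2]
    have h3 : |((K m : ℂ) * z j ^ m * (starRingEnd ℂ) (z i)).re| ≤
        K m * (‖z j‖ ^ m * ‖z i‖) := by
      refine (Complex.abs_re_le_norm _).trans (le_of_eq ?_)
      rw [norm_mul, norm_mul, norm_pow, Complex.norm_real, Real.norm_of_nonneg (K_pos hm).le,
        Complex.norm_conj]
      ring
    have h4 : ‖z j‖ ^ 2 + ‖z i‖ ^ 2 ≤ ‖z‖ ^ 2 := by
      rw [EuclideanSpace.norm_sq_eq]
      have h5 : ∑ k ∈ ({j, i} : Finset (Fin n)), ‖z k‖ ^ 2 ≤ ∑ k, ‖z k‖ ^ 2 :=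
        Finset.sum_le_sum_of_subset_of_nonneg (Finset.subset_univ _) (fun _ _ _ => by positivity)
      rwa [Finset.sum_pair hij.symm] at h5
    have h5 := K_ineq hm (norm_nonneg (z j)) (norm_nonneg (z i)) hzn.le h4
    have h6 : ‖z‖ ^ (m + 1) < ‖z‖ ^ 2 := pow_lt_pow_right_of_lt_one₀ hzn hz1 (by omega)
    have h7 := neg_abs_le ((K m : ℂ) * z j ^ m * (starRingEnd ℂ) (z i)).re
    linarith

theorem ext_P {n m : ℕ} (hm : 2 ≤ m) {i j : Fin n} (hij : i ≠ j) :
    K m ≤ ‖P n (ext n m i j) m (EuclideanSpace.single j (1 : ℂ))‖ := by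
  have hM := ext_inM hm hij
  set e : EuclideanSpace ℂ (Fin n) := EuclideanSpace.single i (1 : ℂ) with he
  set w : EuclideanSpace ℂ (Fin n) := EuclideanSpace.single j (1 : ℂ) with hw
  have hen : ‖e‖ = 1 := by simp [he]
  -- scalar slice
  let L : EuclideanSpace ℂ (Fin n) →L[ℂ] ℂ := innerSL ℂ e
  have hLd : DifferentiableOn ℂ (L ∘ ext n m i j) (ball 0 1) :=
    L.differentiable.comp_differentiableOn hM.holo
  have hsl := slice hLd w m
  have hfun : (fun l : ℂ => (L ∘ ext n m i j) (l • w)) = fun l : ℂ => (K m : ℂ) * l ^ m := by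
    ext l
    simp only [Function.comp_apply]
    show inner ℂ e (ext n m i j (l • w)) = _
    unfold ext
    rw [inner_add_right, inner_smul_right, inner_smul_right]
    have h1 : inner ℂ e w = (0 : ℂ) := by
      rw [he, hw, EuclideanSpace.inner_single_left]
      simp [hij]
    have h2 : inner ℂ e e = (1 : ℂ) := by
      rw [inner_self_eq_norm_sq_to_K, hen]; simp
    have h3 : (l • w) j = l := by simp [hw]
    rw [h1, ← he, h2, h3]
    ring
  rw [hfun] at hsl
  have hcontd : ContDiffAt ℂ m (ext n m i j) 0 := by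
    have := Pool.Agent.Helper540.contDiffOn_of_differentiableOn isOpen_ball hM.holo m
    exact this.contDiffAt (isOpen_ball.mem_nhds (by simp))
  have hcomp : iteratedFDeriv ℂ m (L ∘ ext n m i j) 0 (fun _ => w) =
      L (iteratedFDeriv ℂ m (ext n m i j) 0 (fun _ => w)) := by
    rw [L.iteratedFDeriv_comp_left hcontd le_rfl]
    rfl
  have hpow : iteratedFDeriv ℂ m (fun l : ℂ => (K m : ℂ) * l ^ m) 0 (fun _ => (1 : ℂ)) =
      (K m : ℂ) * m.factorial := by
    rw [← iteratedDeriv_eq_iteratedFDeriv, iteratedDeriv_const_mul_field]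
    congr 1
    rw [iteratedDeriv_eq_iterate, iter_deriv_pow]
    simp only [Nat.sub_self, pow_zero, mul_one]
    rw [← Nat.descFactorial_self, Nat.descFactorial_eq_prod_range, Nat.cast_prod]
    apply Finset.prod_congr rfl
    intro i hi
    rw [Nat.cast_sub (Finset.mem_range.1 hi).le]
  rw [hcomp, hpow] at hsl
  have hmf : (m.factorial : ℂ) ≠ 0 := by exact_mod_cast Nat.factorial_ne_zero m
  have hLP : L (P n (ext n m i j) m w) = (K m : ℂ) := by
    unfold P
    rw [map_smul, ← hsl, smul_eq_mul]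
    field_simp
  have h8 : ‖L (P n (ext n m i j) m w)‖ ≤ ‖e‖ * ‖P n (ext n m i j) m w‖ :=
    norm_inner_le_norm (𝕜 := ℂ) e _
  rw [hLP, hen, one_mul, Complex.norm_real, Real.norm_of_nonneg (K_pos hm).le] at h8
  exact h8

end H14R3.Cara
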